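import Mathlib

set_option autoImplicit false

namespace Pool.Agent.Results.MP_6c3374_co.LogQuadratic

/-- No three distinct points of `P` are collinear. -/
def GenPos (P : Finset (ℝ × ℝ)) : Prop :=
  ∀ a ∈ P, ∀ b ∈ P, ∀ c ∈ P, a ≠ b → a ≠ c → b ≠ c →
    ¬ Collinear ℝ ({a, b, c} : Set (ℝ × ℝ))

/-- Every set of `n` points of the plane in general position, with every 2-colouring of its
pairs, has `p` points in convex position all of whose pairs have the same colour. -/
def Forces (p n : ℕ) : Prop :=
  ∀ P : Finset (ℝ × ℝ), P.card = n → GenPos P →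
    ∀ c : Sym2 (ℝ × ℝ) → Bool,
      ∃ S ⊆ P, S.card = p ∧
        ConvexIndependent ℝ (fun x : (S : Set (ℝ × ℝ)) => (x : ℝ × ℝ)) ∧
        ∃ b : Bool, ∀ x ∈ S, ∀ y ∈ S, x ≠ y → c s(x, y) = b

/-- The number `g(p)` of the problem: the least `n` with `Forces p n`. -/
noncomputable def g (p : ℕ) : ℕ := sInf {n : ℕ | Forces p n}

/-! ### Orientation of triples -/

/-- Twice the signed area of the triangle `a b c`. -/
def area (a b c : ℝ × ℝ) : ℝ := (b.1 - a.1) * (c.2 - a.2) - (b.2 - a.2) * (c.1 - a.1)

lemma collinear_of_area_eq_zero {a b c : ℝ × ℝ} (hab : a ≠ b) (h : area a b c = 0) :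
    Collinear ℝ ({a, b, c} : Set (ℝ × ℝ)) := by
  rw [collinear_iff_of_mem (p₀ := a) (by simp)]
  refine ⟨b - a, ?_⟩
  intro q hq
  simp only [Set.mem_insert_iff, Set.mem_singleton_iff] at hq
  rcases hq with rfl | rfl | rfl
  · exact ⟨0, by simp⟩
  · exact ⟨1, by simp⟩
  · by_cases h1 : b.1 = a.1
    · have h2 : b.2 ≠ a.2 := by
        intro h2; exact hab (Prod.ext h1.symm h2.symm)
      have h3 : b.2 - a.2 ≠ 0 := sub_ne_zero.mpr h2
      refine ⟨(q.2 - a.2) / (b.2 - a.2), ?_⟩
      unfold area at h
      rw [h1] at h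
      have h4 : (b.2 - a.2) * (q.1 - a.1) = 0 := by linarith
      have h5 : q.1 - a.1 = 0 := by
        rcases mul_eq_zero.mp h4 with h | h
        · exact absurd h h3
        · exact h
      apply Prod.ext
      · simp [h1]; linarith
      · simp
        field_simp
        ring
    · have h3 : b.1 - a.1 ≠ 0 := sub_ne_zero.mpr h1
      refine ⟨(q.1 - a.1) / (b.1 - a.1), ?_⟩
      unfold area at h
      apply Prod.ext
      · simp
        field_simp
        ring
      · simp
        field_simp
        linarith

lemma area_ne_zero {P : Finset (ℝ × ℝ)} (hP : GenPos P) {a b c : ℝ × ℝ} (ha : a ∈ P)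
    (hb : b ∈ P) (hc : c ∈ P) (hab : a ≠ b) (hac : a ≠ c) (hbc : b ≠ c) :
    area a b c ≠ 0 := fun h =>
  hP a ha b hb c hc hab hac hbc (collinear_of_area_eq_zero hab h)

/-- lexicographic positivity of a vector -/
def LexPos (u : ℝ × ℝ) : Prop := 0 < u.1 ∨ (u.1 = 0 ∧ 0 < u.2)

/-- `a` comes before `b` lexicographically -/
def Bef (a b : ℝ × ℝ) : Prop := toLex a < toLex b

lemma bef_iff {a b : ℝ × ℝ} : Bef a b ↔ LexPos (b - a) := by
  unfold Bef LexPos
  rw [Prod.Lex.toLex_lt_toLex]
  simp only [Prod.fst_sub, Prod.snd_sub, sub_pos, sub_eq_zero]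
  constructor
  · rintro (h | ⟨h, h'⟩)
    · exact Or.inl h
    · exact Or.inr ⟨h.symm, h'⟩
  · rintro (h | ⟨h, h'⟩)
    · exact Or.inl h
    · exact Or.inr ⟨h.symm, h'⟩

lemma Bef.ne {a b : ℝ × ℝ} (h : Bef a b) : a ≠ b := by
  rintro rfl; exact lt_irrefl _ h

lemma Bef.trans {a b c : ℝ × ℝ} (h : Bef a b) (h' : Bef b c) : Bef a c :=
  lt_trans (α := Lex (ℝ × ℝ)) h h'

/-- the cross product -/
def cross (u v : ℝ × ℝ) : ℝ := u.1 * v.2 - u.2 * v.1

lemma cross_trans {u w w' : ℝ × ℝ} (hu : LexPos u) (hw : LexPos w) (hw' : LexPos w')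
    (h1 : 0 < cross u w) (h2 : 0 ≤ cross w w') : 0 < cross u w' := by
  unfold cross at *
  unfold LexPos at *
  obtain ⟨u1, u2⟩ := u
  obtain ⟨w1, w2⟩ := w
  obtain ⟨v1, v2⟩ := w'
  simp only at *
  rcases hw with hw | ⟨hw, hw2⟩
  · have key : (u1 * v2 - u2 * v1) * w1
        = (u1 * w2 - u2 * w1) * v1 + (w1 * v2 - w2 * v1) * u1 := by ring
    have hpos : 0 < (u1 * v2 - u2 * v1) * w1 := by
      rw [key]
      rcases hw' with hv | ⟨hv, hv2⟩
      · have hu1 : 0 ≤ u1 := by rcases hu with h | ⟨h, _⟩ <;> linarith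
        have := mul_pos h1 hv
        have := mul_nonneg h2 hu1
        linarith
      · subst hv
        rcases hu with h | ⟨h, h'⟩
        · have := mul_pos (mul_pos hw hv2) h
          nlinarith
        · subst h
          exfalso
          have := mul_pos h' hw
          linarith
    by_contra hcon
    push Not at hcon
    have := mul_nonpos_of_nonpos_of_nonneg hcon hw.le
    linarith
  · subst hw
    have hv1 : v1 = 0 := by
      rcases hw' with hv | ⟨hv, _⟩
      · exfalso
        have := mul_pos hw2 hv
        linarith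
      · exact hv
    subst hv1
    have hv2 : 0 < v2 := by
      rcases hw' with hv | ⟨_, hv⟩
      · exact absurd hv (lt_irrefl _)
      · exact hv
    have hu1 : 0 < u1 := by
      by_contra hcon
      push Not at hcon
      have : u1 * w2 ≤ 0 := mul_nonpos_of_nonpos_of_nonneg hcon hw2.le
      linarith
    have := mul_pos hu1 hv2
    linarith

lemma area_eq_cross (r x y : ℝ × ℝ) : area r x y = cross (x - r) (y - x) := by
  unfold area cross
  simp only [Prod.fst_sub, Prod.snd_sub]
  ring

lemma area_eq_cross' (a b z : ℝ × ℝ) : area a b z = cross (z - a) (z - b) := by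
  unfold area cross
  simp only [Prod.fst_sub, Prod.snd_sub]
  ring

/-- Seen from a point `x`, if `y'` is weakly above the line from `x` to `y`, then every
earlier point `r` having `y` to its left through `x` also has `y'` to its left. -/
lemma area_nested {r x y y' : ℝ × ℝ} (hr : Bef r x) (hy : Bef x y) (hy' : Bef x y')
    (h1 : 0 < area r x y) (h2 : 0 ≤ area x y y') : 0 < area r x y' := by
  rw [area_eq_cross] at h1 ⊢
  have h2' : 0 ≤ cross (y - x) (y' - x) := by
    rw [area_eq_cross] at h2
    have : cross (y - x) (y' - x) = cross (y - x) (y' - y) := by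
      unfold cross; simp only [Prod.fst_sub, Prod.snd_sub]; ring
    rw [this]; exact h2
  exact cross_trans (bef_iff.mp hr) (bef_iff.mp hy) (bef_iff.mp hy') h1 h2'

/-- Seen from a common later point `z`, turning left is transitive. -/
lemma area_trans {a b c z : ℝ × ℝ} (ha : Bef a z) (hb : Bef b z) (hc : Bef c z)
    (h1 : 0 < area a b z) (h2 : 0 < area b c z) : 0 < area a c z := by
  rw [area_eq_cross'] at *
  exact cross_trans (bef_iff.mp ha) (bef_iff.mp hb) (bef_iff.mp hc) h1 h2.le

lemma area_cyc (a b c : ℝ × ℝ) : area a b c = area b c a := by unfold area; ring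

lemma area_swap (a b c : ℝ × ℝ) : area a c b = - area a b c := by unfold area; ring

/-! ### A chain of triples of one orientation is in convex position -/

lemma convex_aux (u v : ℝ × ℝ) (σ : ℝ) :
    Convex ℝ {s : ℝ × ℝ | 0 < σ * area u v s ∨ s = u} := by
  intro s hs t ht α β hα hβ hαβ
  have hf : area u v (α • s + β • t) = α * area u v s + β * area u v t := by
    have h1 : α = 1 - β := by linarith
    subst h1
    unfold area
    simp only [Prod.fst_add, Prod.snd_add, Prod.smul_fst, Prod.smul_snd, smul_eq_mul]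
    ring
  have hu : area u v u = 0 := by unfold area; ring
  change 0 < σ * area u v s ∨ s = u at hs
  change 0 < σ * area u v t ∨ t = u at ht
  change 0 < σ * area u v (α • s + β • t) ∨ α • s + β • t = u
  rcases hs with hs | rfl <;> rcases ht with ht | rfl
  · left
    rw [hf]
    rcases hα.eq_or_lt with h | h
    · subst h
      have : β = 1 := by linarith
      subst this
      simpa using ht
    · have := mul_pos h hs
      have := mul_nonneg hβ ht.le
      nlinarith
  · rcases hα.eq_or_lt with h | h
    · subst h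
      have : β = 1 := by linarith
      subst this
      right; simp
    · left
      rw [hf, hu]
      have := mul_pos h hs
      nlinarith
  · rcases hβ.eq_or_lt with h | h
    · subst h
      have : α = 1 := by linarith
      subst this
      right; simp
    · left
      rw [hf, hu]
      have := mul_pos h ht
      nlinarith
  · right
    rw [← add_smul, hαβ, one_smul]

lemma convexIndependent_of_chain (J : Finset ℕ) (x : ℕ → ℝ × ℝ) (σ : ℝ)
    (hx : ∀ i ∈ J, ∀ j ∈ J, i < j → x i ≠ x j)
    (h : ∀ i ∈ J, ∀ j ∈ J, ∀ l ∈ J, i < j → j < l → 0 < σ * area (x i) (x j) (x l)) :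
    ConvexIndependent ℝ (fun q : ((J.image x : Finset (ℝ × ℝ)) : Set (ℝ × ℝ)) => (q : ℝ × ℝ)) := by
  have hne : ∀ i ∈ J, ∀ j ∈ J, i ≠ j → x i ≠ x j := by
    intro i hi j hj hij
    rcases lt_or_gt_of_ne hij with h' | h'
    · exact hx i hi j hj h'
    · exact (hx j hj i hi h').symm
  rw [convexIndependent_set_iff_notMem_convexHull_sdiff]
  intro q hq hmem
  rw [Finset.mem_coe, Finset.mem_image] at hq
  obtain ⟨j, hj, rfl⟩ := hq
  -- a neighbour `a` of `j` in `J` such that all other points are on one side of the line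
  have key : (J = {j}) ∨ ∃ a ∈ J, a ≠ j ∧ ∃ τ : ℝ, ∀ s ∈ J, s ≠ j → s ≠ a →
      0 < τ * area (x a) (x j) (x s) := by
    by_cases hlow : (J.filter (fun i => i < j)).Nonempty
    · right
      obtain ⟨a, ha, hamax⟩ := Finset.exists_max_image _ (fun i => i) hlow
      rw [Finset.mem_filter] at ha
      refine ⟨a, ha.1, ha.2.ne, σ, ?_⟩
      intro s hs hsj hsa
      rcases lt_or_gt_of_ne hsj with h' | h'
      · have h1 : s ≤ a := hamax s (by rw [Finset.mem_filter]; exact ⟨hs, h'⟩)
        have h2 : s < a := lt_of_le_of_ne h1 hsa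
        have := h s hs a ha.1 j hj h2 ha.2
        rw [area_cyc] at this
        exact this
      · exact h a ha.1 j hj s hs ha.2 h'
    · by_cases hhigh : (J.filter (fun i => j < i)).Nonempty
      · right
        obtain ⟨a, ha, hamin⟩ := Finset.exists_min_image _ (fun i => i) hhigh
        rw [Finset.mem_filter] at ha
        refine ⟨a, ha.1, ha.2.ne', -σ, ?_⟩
        intro s hs hsj hsa
        rcases lt_or_gt_of_ne hsj with h' | h'
        · exfalso
          exact hlow ⟨s, by rw [Finset.mem_filter]; exact ⟨hs, h'⟩⟩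
        · have h1 : a ≤ s := hamin s (by rw [Finset.mem_filter]; exact ⟨hs, h'⟩)
          have h2 : a < s := lt_of_le_of_ne h1 (Ne.symm hsa)
          have := h j hj a ha.1 s hs ha.2 h2
          have e : area (x a) (x j) (x s) = - area (x j) (x a) (x s) := by
            unfold area; ring
          rw [e]; linarith
      · left
        apply Finset.eq_singleton_iff_unique_mem.mpr
        refine ⟨hj, ?_⟩
        intro i hi
        by_contra hij
        rcases lt_or_gt_of_ne hij with h' | h'
        · exact hlow ⟨i, by rw [Finset.mem_filter]; exact ⟨hi, h'⟩⟩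
        · exact hhigh ⟨i, by rw [Finset.mem_filter]; exact ⟨hi, h'⟩⟩
  rcases key with hJ | ⟨a, ha, haj, τ, hτ⟩
  · subst hJ
    simp at hmem
  · have hsub : (((J.image x : Finset (ℝ × ℝ)) : Set (ℝ × ℝ)) \ {x j}) ⊆
        {s : ℝ × ℝ | 0 < τ * area (x a) (x j) s ∨ s = x a} := by
      rintro s ⟨hs, hsj⟩
      rw [Finset.mem_coe, Finset.mem_image] at hs
      obtain ⟨i, hi, rfl⟩ := hs
      by_cases hia : i = a
      · right; rw [hia]
      · left
        apply hτ i hi _ hia
        rintro rfl
        exact hsj rfl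
    have : 0 < τ * area (x a) (x j) (x j) ∨ x j = x a :=
      convexHull_min hsub (convex_aux (x a) (x j) τ) hmem
    rcases this with h' | h'
    · have e : area (x a) (x j) (x j) = 0 := by unfold area; ring
      rw [e] at h'; simp at h'
    · exact hne j hj a ha haj.symm h'

/-! ### The selection procedure -/

/-- `K t k`: more than `K t k` candidates suffice for `k` further picks after `t` picks. -/
def K : ℕ → ℕ → ℕ
  | _, 0 => 0
  | t, (k + 1) => 2 * (t + 1) * K (t + 1) k + 1

open Classical in
lemma build (c : Sym2 (ℝ × ℝ) → Bool) (k : ℕ) :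
    ∀ (L A : Finset (ℝ × ℝ)), (∀ r ∈ L, ∀ y ∈ A, Bef r y) → K L.card k < A.card →
      ∃ x : ℕ → ℝ × ℝ, (∀ i, i ≤ k → x i ∈ A) ∧
        (∀ i j, i < j → j ≤ k → Bef (x i) (x j)) ∧
        (∃ col : ℕ → Bool, ∀ i j, i < j → j ≤ k → c s(x i, x j) = col i) ∧
        (∀ i j l, i < j → j < l → l ≤ k →
          (0 < area (x i) (x j) (x l) ↔ 0 < area (x i) (x j) (x k))) ∧
        (∀ r ∈ L, ∀ j l, j < l → l ≤ k →
          (0 < area r (x j) (x l) ↔ 0 < area r (x j) (x k))) := by
  induction k with
  | zero =>
    intro L A _ hA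
    have hne : A.Nonempty := Finset.card_pos.mp (by simpa [K] using hA)
    obtain ⟨a, ha⟩ := hne
    refine ⟨fun _ => a, fun _ _ => ha, ?_, ⟨fun _ => true, ?_⟩, ?_, ?_⟩
    · intro i j hij hj; omega
    · intro i j hij hj; omega
    · intro i j l hij hjl hl; omega
    · intro r _ j l hjl hl; omega
  | succ k ih =>
    intro L A hLA hA
    have hne : A.Nonempty := Finset.card_pos.mp (by omega)
    obtain ⟨a, ha, hamin⟩ := Finset.exists_min_image A (fun q => toLex q) hne
    have hbef : ∀ y ∈ A.erase a, Bef a y := by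
      intro y hy
      rw [Finset.mem_erase] at hy
      have h1 := hamin y hy.2
      exact lt_of_le_of_ne h1 (fun h => hy.1 (toLex.injective h).symm)
    have hcard : (A.erase a).card = A.card - 1 := Finset.card_erase_of_mem ha
    -- the classes
    let D : ℝ × ℝ → Finset (ℝ × ℝ) := fun y => L.filter (fun r => 0 < area r a y)
    let f : ℝ × ℝ → Bool × ℕ := fun y => (c s(a, y), (D y).card)
    have hmaps : ∀ y ∈ A.erase a, f y ∈ (Finset.univ : Finset Bool) ×ˢ Finset.range (L.card + 1) := by
      intro y _
      simp only [f, Finset.mem_product, Finset.mem_univ, true_and, Finset.mem_range]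
      exact Nat.lt_succ_of_le (Finset.card_le_card (Finset.filter_subset _ _))
    have hlt : ((Finset.univ : Finset Bool) ×ˢ Finset.range (L.card + 1)).card *
        K (L.card + 1) k < (A.erase a).card := by
      rw [Finset.card_product, Finset.card_range, Finset.card_univ, Fintype.card_bool, hcard]
      simp only [K] at hA
      omega
    obtain ⟨⟨b, d⟩, _, hfib⟩ := Finset.exists_lt_card_fiber_of_mul_lt_card_of_maps_to hmaps hlt
    set B : Finset (ℝ × ℝ) := (A.erase a).filter (fun y => f y = (b, d)) with hB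
    have haL : a ∉ L := fun h => (hLA a h a ha).ne rfl
    have hLB : ∀ r ∈ insert a L, ∀ y ∈ B, Bef r y := by
      intro r hr y hy
      rw [hB, Finset.mem_filter] at hy
      rcases Finset.mem_insert.mp hr with rfl | hr
      · exact hbef y hy.1
      · exact hLA r hr y (Finset.mem_of_mem_erase hy.1)
    have hcardL : (insert a L).card = L.card + 1 := Finset.card_insert_of_notMem haL
    obtain ⟨x, hxA, hxlt, ⟨col, hcol⟩, hxo, hxL⟩ := ih (insert a L) B hLB (by rw [hcardL]; exact hfib)
    -- all elements of B see the earlier points in the same way through a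
    have hsame : ∀ y ∈ B, ∀ y' ∈ B, ∀ r ∈ L, (0 < area r a y → 0 < area r a y') := by
      intro y hy y' hy' r hr hpos
      rw [hB, Finset.mem_filter] at hy hy'
      have hra : Bef r a := hLA r hr a ha
      have hcy : (D y).card = (D y').card := by
        have h1 := hy.2
        have h2 := hy'.2
        simp only [f, Prod.mk.injEq] at h1 h2
        rw [h1.2, h2.2]
      rcases le_total 0 (area a y y') with hs | hs
      · exact area_nested hra (hbef y hy.1) (hbef y' hy'.1) hpos hs
      · have hs' : 0 ≤ area a y' y := by rw [area_swap]; linarith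
        have hsub : D y' ⊆ D y := by
          intro r' hr'
          simp only [D, Finset.mem_filter] at hr' ⊢
          exact ⟨hr'.1, area_nested (hLA r' hr'.1 a ha) (hbef y' hy'.1) (hbef y hy.1) hr'.2 hs'⟩
        have heq : D y' = D y := Finset.eq_of_subset_of_card_le hsub hcy.le
        have hmem : r ∈ D y := by
          simp only [D, Finset.mem_filter]; exact ⟨hr, hpos⟩
        rw [← heq] at hmem
        simp only [D, Finset.mem_filter] at hmem
        exact hmem.2
    refine ⟨fun i => Nat.casesOn i a x, ?_, ?_, ⟨fun i => Nat.casesOn i b col, ?_⟩, ?_, ?_⟩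
    · intro i hi
      cases i with
      | zero => exact ha
      | succ i =>
        have := hxA i (by omega)
        rw [hB, Finset.mem_filter] at this
        exact Finset.mem_of_mem_erase this.1
    · intro i j hij hj
      cases j with
      | zero => omega
      | succ j =>
        cases i with
        | zero => exact hLB a (Finset.mem_insert_self _ _) _ (hxA j (by omega))
        | succ i => exact hxlt i j (by omega) (by omega)
    · intro i j hij hj
      cases j with
      | zero => omega
      | succ j =>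
        cases i with
        | zero =>
          have := hxA j (by omega)
          rw [hB, Finset.mem_filter] at this
          have h2 := this.2
          simp only [f, Prod.mk.injEq] at h2
          exact h2.1
        | succ i => exact hcol i j (by omega) (by omega)
    · intro i j l hij hjl hl
      cases j with
      | zero => omega
      | succ j =>
        cases l with
        | zero => omega
        | succ l =>
          cases i with
          | zero => exact hxL a (Finset.mem_insert_self _ _) j l (by omega) (by omega)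
          | succ i => exact hxo i j l (by omega) (by omega) (by omega)
    · intro r hr j l hjl hl
      cases l with
      | zero => omega
      | succ l =>
        cases j with
        | zero =>
          have h1 := hxA l (by omega)
          have h2 := hxA k le_rfl
          exact ⟨hsame _ h1 _ h2 r hr, hsame _ h2 _ h1 r hr⟩
        | succ j => exact hxL r (Finset.mem_insert_of_mem hr) j l (by omega) (by omega)

/-! ### The chain lemma -/

open Classical in
lemma chain_lemma (I : Finset ℕ) (R : ℕ → ℕ → Prop) (m : ℕ)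
    (htrans : ∀ i ∈ I, ∀ j ∈ I, ∀ l ∈ I, i < j → j < l → R i j → R j l → R i l)
    (hI : m * m < I.card) :
    ∃ T ⊆ I, T.card = m + 1 ∧
      ((∀ i ∈ T, ∀ j ∈ T, i < j → R i j) ∨ (∀ i ∈ T, ∀ j ∈ T, i < j → ¬ R i j)) := by
  -- chains ending at `j`
  let Ch : ℕ → Finset (Finset ℕ) := fun j =>
    I.powerset.filter (fun T => j ∈ T ∧ (∀ i ∈ T, i ≤ j) ∧ ∀ i ∈ T, ∀ l ∈ T, i < l → R i l)
  let lab : ℕ → ℕ := fun j => (Ch j).sup Finset.card
  by_cases hbig : ∃ j ∈ I, m + 1 ≤ lab j
  · obtain ⟨j, hj, hlab⟩ := hbig
    have hne : (Ch j).Nonempty := by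
      refine ⟨{j}, ?_⟩
      simp only [Ch, Finset.mem_filter, Finset.mem_powerset, Finset.singleton_subset_iff,
        Finset.mem_singleton]
      refine ⟨hj, trivial, ?_, ?_⟩
      · rintro i rfl; exact le_rfl
      · rintro i rfl l rfl h; exact absurd h (lt_irrefl _)
    obtain ⟨T, hT, hTcard⟩ := Finset.exists_mem_eq_sup (Ch j) hne Finset.card
    have hTm : m + 1 ≤ T.card := by
      have : lab j = T.card := hTcard
      omega
    obtain ⟨T', hT'sub, hT'card⟩ := Finset.exists_subset_card_eq hTm
    simp only [Ch, Finset.mem_filter, Finset.mem_powerset] at hT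
    refine ⟨T', hT'sub.trans hT.1, hT'card, Or.inl ?_⟩
    intro i hi l hl hil
    exact hT.2.2.2 i (hT'sub hi) l (hT'sub hl) hil
  · push Not at hbig
    have hpos : ∀ j ∈ I, 1 ≤ lab j := by
      intro j hj
      have hmem : ({j} : Finset ℕ) ∈ Ch j := by
        simp only [Ch, Finset.mem_filter, Finset.mem_powerset, Finset.singleton_subset_iff,
          Finset.mem_singleton]
        refine ⟨hj, trivial, ?_, ?_⟩
        · rintro i rfl; exact le_rfl
        · rintro i rfl l rfl h; exact absurd h (lt_irrefl _)
      have h1 := Finset.le_sup (f := Finset.card) hmem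
      rw [Finset.card_singleton] at h1
      exact h1
    have hmaps : ∀ j ∈ I, lab j ∈ Finset.Icc 1 m := by
      intro j hj
      rw [Finset.mem_Icc]
      have := hbig j hj
      exact ⟨hpos j hj, by omega⟩
    have hlt : (Finset.Icc 1 m).card * m < I.card := by
      rw [Nat.card_Icc]; simpa using hI
    obtain ⟨v, _, hv⟩ := Finset.exists_lt_card_fiber_of_mul_lt_card_of_maps_to hmaps hlt
    obtain ⟨T, hTsub, hTcard⟩ := Finset.exists_subset_card_eq (Nat.succ_le_of_lt hv)
    refine ⟨T, hTsub.trans (Finset.filter_subset _ _), hTcard, Or.inr ?_⟩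
    intro i hi j hj hij hR
    have hi' := hTsub hi
    have hj' := hTsub hj
    rw [Finset.mem_filter] at hi' hj'
    -- take an optimal chain for `i`
    have hne : (Ch i).Nonempty := by
      refine ⟨{i}, ?_⟩
      simp only [Ch, Finset.mem_filter, Finset.mem_powerset, Finset.singleton_subset_iff,
        Finset.mem_singleton]
      refine ⟨hi'.1, trivial, ?_, ?_⟩
      · rintro i rfl; exact le_rfl
      · rintro i rfl l rfl h; exact absurd h (lt_irrefl _)
    obtain ⟨U, hU, hUcard⟩ := Finset.exists_mem_eq_sup (Ch i) hne Finset.card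
    simp only [Ch, Finset.mem_filter, Finset.mem_powerset] at hU
    have hjU : j ∉ U := fun h => by
      have := hU.2.2.1 j h
      omega
    have hmem : insert j U ∈ Ch j := by
      simp only [Ch, Finset.mem_filter, Finset.mem_powerset]
      refine ⟨Finset.insert_subset hj'.1 hU.1, Finset.mem_insert_self _ _, ?_, ?_⟩
      · intro l hl
        rcases Finset.mem_insert.mp hl with rfl | hl
        · exact le_rfl
        · have := hU.2.2.1 l hl
          omega
      · intro l hl l' hl' hll'
        rcases Finset.mem_insert.mp hl with rfl | hlU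
        · rcases Finset.mem_insert.mp hl' with rfl | hl'U
          · exact absurd hll' (lt_irrefl _)
          · have := hU.2.2.1 l' hl'U
            omega
        · rcases Finset.mem_insert.mp hl' with rfl | hl'U
          · rcases (hU.2.2.1 l hlU).eq_or_lt with h | h
            · rw [h]; exact hR
            · exact htrans l (hU.1 hlU) i hi'.1 l' hj'.1 h hij
                (hU.2.2.2 l hlU i hU.2.1 h) hR
          · exact hU.2.2.2 l hlU l' hl'U hll'
    have h1 := Finset.le_sup (f := Finset.card) hmem
    rw [Finset.card_insert_of_notMem hjU] at h1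
    have h2 : lab i = U.card := hUcard
    have h3 : U.card + 1 ≤ lab j := h1
    omega

/-! ### Numerical bound for `K` -/

lemma K_bound (k : ℕ) : ∀ t : ℕ,
    t.factorial * (K t (k + 1) + 1) ≤ 2 ^ (k + 1) * (t + k).factorial := by
  induction k with
  | zero => intro t; simp [K]; omega
  | succ k ih =>
    intro t
    have h1 := ih (t + 1)
    have h2 : K t (k + 2) + 1 ≤ 2 * (t + 1) * (K (t + 1) (k + 1) + 1) := by
      show 2 * (t + 1) * K (t + 1) (k + 1) + 1 + 1 ≤ _
      nlinarith
    calc t.factorial * (K t (k + 2) + 1)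
        ≤ t.factorial * (2 * (t + 1) * (K (t + 1) (k + 1) + 1)) := Nat.mul_le_mul_left _ h2
      _ = 2 * ((t + 1).factorial * (K (t + 1) (k + 1) + 1)) := by
          rw [Nat.factorial_succ]; ring
      _ ≤ 2 * (2 ^ (k + 1) * (t + 1 + k).factorial) := Nat.mul_le_mul_left _ h1
      _ = 2 ^ (k + 1 + 1) * (t + (k + 1)).factorial := by
          rw [show t + 1 + k = t + (k + 1) by omega]; ring

open Classical in
/-- The combinatorial core: `2^(2m^2+1) (2m^2)!` points suffice for `p = m + 2`. -/
theorem forces_bound (m : ℕ) :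
    Forces (m + 2) (2 ^ (2 * m ^ 2 + 1) * (2 * m ^ 2).factorial) := by
  intro P hPcard hP c
  set n := 2 * m ^ 2 + 1 with hn
  have hK : K (∅ : Finset (ℝ × ℝ)).card n < P.card := by
    have := K_bound (2 * m ^ 2) 0
    simp only [Nat.factorial_zero, one_mul, zero_add] at this
    rw [Finset.card_empty, hPcard]
    exact this
  obtain ⟨x, hxP, hxlt, ⟨col, hcol⟩, hxo, _⟩ := build c n ∅ P (by simp) hK
  -- a popular colour
  have hmaps : ∀ i ∈ Finset.range n, col i ∈ (Finset.univ : Finset Bool) := fun _ _ => Finset.mem_univ _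
  have hlt : (Finset.univ : Finset Bool).card * (m * m) < (Finset.range n).card := by
    rw [Finset.card_univ, Fintype.card_bool, Finset.card_range, hn]
    nlinarith
  obtain ⟨b, _, hb⟩ := Finset.exists_lt_card_fiber_of_mul_lt_card_of_maps_to hmaps hlt
  set I := (Finset.range n).filter (fun i => col i = b) with hI
  have hIlt : ∀ i ∈ I, i < n := by
    intro i hi
    rw [hI, Finset.mem_filter, Finset.mem_range] at hi
    exact hi.1
  have hIcol : ∀ i ∈ I, col i = b := by
    intro i hi
    rw [hI, Finset.mem_filter] at hi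
    exact hi.2
  obtain ⟨T, hTI, hTcard, hT⟩ := chain_lemma I (fun i j => 0 < area (x i) (x j) (x n)) m (by
    intro i hi j hj l hl _ _ h1 h2
    exact area_trans (hxlt i n (hIlt i hi) le_rfl) (hxlt j n (hIlt j hj) le_rfl)
      (hxlt l n (hIlt l hl) le_rfl) h1 h2) hb
  have hTlt : ∀ i ∈ T, i < n := fun i hi => hIlt i (hTI hi)
  have hnT : n ∉ T := fun h => lt_irrefl _ (hTlt n h)
  set J := insert n T with hJ
  have hJle : ∀ i ∈ J, i ≤ n := by
    intro i hi
    rcases Finset.mem_insert.mp hi with rfl | h
    · exact le_rfl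
    · exact (hTlt i h).le
  have hJT : ∀ i ∈ J, ∀ j ∈ J, i < j → i ∈ T := by
    intro i hi j hj hij
    rcases Finset.mem_insert.mp hi with rfl | h
    · have := hJle j hj; omega
    · exact h
  have hinj : Set.InjOn x (J : Set ℕ) := by
    intro i hi j hj hij
    by_contra hne
    rcases lt_or_gt_of_ne hne with h | h
    · exact (hxlt i j h (hJle j hj)).ne hij
    · exact (hxlt j i h (hJle i hi)).ne hij.symm
  have hne3 : ∀ i j l, i < j → j < l → l ≤ n → area (x i) (x j) (x l) ≠ 0 := by
    intro i j l hij hjl hl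
    exact area_ne_zero hP (hxP i (by omega)) (hxP j (by omega)) (hxP l hl)
      (hxlt i j hij (by omega)).ne (hxlt i l (by omega) hl).ne (hxlt j l hjl hl).ne
  have hconv : ConvexIndependent ℝ
      (fun q : ((J.image x : Finset (ℝ × ℝ)) : Set (ℝ × ℝ)) => (q : ℝ × ℝ)) := by
    rcases hT with hT | hT
    · apply convexIndependent_of_chain J x 1
      · intro i _ j hj hij
        exact (hxlt i j hij (hJle j hj)).ne
      · intro i hi j hj l hl hij hjl
        rw [one_mul]
        rw [hxo i j l hij hjl (hJle l hl)]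
        exact hT i (hJT i hi j hj hij) j (hJT j hj l hl hjl) hij
    · apply convexIndependent_of_chain J x (-1)
      · intro i _ j hj hij
        exact (hxlt i j hij (hJle j hj)).ne
      · intro i hi j hj l hl hij hjl
        have h1 : ¬ 0 < area (x i) (x j) (x l) := by
          rw [hxo i j l hij hjl (hJle l hl)]
          exact hT i (hJT i hi j hj hij) j (hJT j hj l hl hjl) hij
        have h2 := hne3 i j l hij hjl (hJle l hl)
        push Not at h1
        have h3 := lt_of_le_of_ne h1 h2
        linarith
  refine ⟨J.image x, ?_, ?_, hconv, b, ?_⟩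
  · intro q hq
    rw [Finset.mem_image] at hq
    obtain ⟨i, hi, rfl⟩ := hq
    exact hxP i (hJle i hi)
  · rw [Finset.card_image_of_injOn hinj, hJ, Finset.card_insert_of_notMem hnT, hTcard]
  · intro q hq q' hq' hqq'
    rw [Finset.mem_image] at hq hq'
    obtain ⟨i, hi, rfl⟩ := hq
    obtain ⟨j, hj, rfl⟩ := hq'
    have hij : i ≠ j := fun h => hqq' (by rw [h])
    rcases lt_or_gt_of_ne hij with h | h
    · rw [hcol i j h (hJle j hj)]
      exact hIcol i (hTI (hJT i hi j hj h))
    · rw [Sym2.eq_swap, hcol j i h (hJle i hi)]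
      exact hIcol j (hTI (hJT j hj i hi h))

lemma not_forces_zero (p : ℕ) (hp : 1 ≤ p) : ¬ Forces p 0 := by
  intro h
  obtain ⟨S, hS, hcard, _⟩ := h ∅ rfl (by intro a ha; simp at ha) (fun _ => true)
  rw [Finset.subset_empty] at hS
  subst hS
  simp at hcard
  omega

/-- For every `p ≥ 3` the number `g(p)` exists and
`log₂ g(p) ≤ 4 (p-2)² (1 + log₂ (p-2)) + 1`; in particular `log g(p) = O(p² log p)`. -/
theorem result : ∀ p : ℕ, 3 ≤ p →
    IsLeast {n : ℕ | Forces p n} (g p) ∧
    Real.logb 2 (g p) ≤ 4 * ((p : ℝ) - 2) ^ 2 * (1 + Real.logb 2 ((p : ℝ) - 2)) + 1 := by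
  intro p hp
  obtain ⟨m, rfl⟩ : ∃ m, p = m + 2 := ⟨p - 2, by omega⟩
  have hm : 1 ≤ m := by omega
  have hmem := forces_bound m
  have hne : {n : ℕ | Forces (m + 2) n}.Nonempty := ⟨_, hmem⟩
  have hgmem : Forces (m + 2) (g (m + 2)) := Nat.sInf_mem hne
  have hgle : g (m + 2) ≤ 2 ^ (2 * m ^ 2 + 1) * (2 * m ^ 2).factorial := Nat.sInf_le hmem
  refine ⟨⟨hgmem, fun n hn => Nat.sInf_le hn⟩, ?_⟩
  have hgpos : 0 < g (m + 2) := by
    rcases Nat.eq_zero_or_pos (g (m + 2)) with h | h
    · rw [h] at hgmem
      exact absurd hgmem (not_forces_zero _ (by omega))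
    · exact h
  have hcast : ((m + 2 : ℕ) : ℝ) - 2 = m := by push_cast; ring
  rw [hcast]
  have hmR : (1 : ℝ) ≤ m := by exact_mod_cast hm
  have hfac : ((2 * m ^ 2).factorial : ℝ) ≤ (2 * (m : ℝ) ^ 2) ^ (2 * m ^ 2) := by
    have := Nat.factorial_le_pow (2 * m ^ 2)
    exact_mod_cast this
  have h1 : (g (m + 2) : ℝ) ≤ 2 ^ (2 * m ^ 2 + 1) * (2 * (m : ℝ) ^ 2) ^ (2 * m ^ 2) := by
    have : (g (m + 2) : ℝ) ≤ 2 ^ (2 * m ^ 2 + 1) * ((2 * m ^ 2).factorial : ℝ) := by
      exact_mod_cast hgle
    refine this.trans ?_
    gcongr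
  have hposbase : (0 : ℝ) < 2 * (m : ℝ) ^ 2 := by positivity
  calc Real.logb 2 (g (m + 2))
      ≤ Real.logb 2 (2 ^ (2 * m ^ 2 + 1) * (2 * (m : ℝ) ^ 2) ^ (2 * m ^ 2)) := by
        apply Real.logb_le_logb_of_le (by norm_num) (by exact_mod_cast hgpos) h1
    _ = (2 * m ^ 2 + 1 : ℕ) * Real.logb 2 2 + (2 * m ^ 2 : ℕ) * Real.logb 2 (2 * (m : ℝ) ^ 2) := by
        rw [Real.logb_mul (by positivity) (by positivity), Real.logb_pow, Real.logb_pow]
    _ = 4 * (m : ℝ) ^ 2 * (1 + Real.logb 2 m) + 1 := by
        rw [Real.logb_mul (by norm_num) (by positivity), Real.logb_pow,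
          Real.logb_self_eq_one (by norm_num)]
        push_cast
        ring
    _ ≤ _ := le_rfl

end Pool.Agent.Results.MP_6c3374_co.LogQuadratic
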